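import Pool.Agent.H30.PR.Cyc

/-!
The powers of vector invariants that lie in the algebra generated by polarizations: the optimal
uniform exponent.
-/

set_option autoImplicit false

namespace Pool.Agent.Results.MP_d2bd57_al.OptimalExponent

open Pool.Agent.Q109.Polar Pool.Agent.H30.PR

universe u v w

/-- `p` is a prime. `Works p ρ n d` says that `f ^ (p ^ d) ∈ P_n` for all invariants `f` of `V ^ n`,
`V = k ^ m` with the action `ρ`; `Unif p N d` says `Works p ρ n d` for all fields of characteristic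
`p`, all groups of order `N`, all `m`, `ρ` and `n`.

(1) Answer to the question, for every field `k` of characteristic `p`, every group `G` acting
through a finite group of order `N` and every `n`: `d = v_p(N) + ⌈log_p N⌉` works.
(2) For `p ∤ N` the least `d` with `Unif p N d` is `⌈log_p N⌉`.
(3) If `N = p ^ a * b`, `p ∤ b`, then `Unif p N d` holds for `d = 2 * a + ⌈log_p b⌉` and implies
`a ≤ d` and `⌈log_p b⌉ ≤ d`.
(4) For `V = χ ⊕ χ⁻¹`, `χ` a character of `G` of finite order `r`, `d(n) = ⌈log_p r⌉` for `n ≥ 2`.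
(5) For `V` of dimension one, `G` acting through a group of order `r`, `d(n) ≤ ⌊log_p r⌋` for all
`n`, with equality for `n ≥ r`.
(6) If `G` maps onto the additive group of a subfield `E` of `k` with `p ^ a ≠ 2` elements, and acts
on `k ^ 2` through `E` by transvections, then `a ≤ d(n)` for `n ≥ 2`.
(7) If `V` is a permutation module of degree `m` and `p ^ e > m (m - 1) / 2`, then `d(n) ≤ e` for all
`n`, whatever the group is.
(8) For the cyclic group of order `m ≥ 3` acting on `k ^ m` by rotations, `k` containing a primitive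
`m`-th root of unity, `d(n) = ⌈log_p m⌉` for `n ≥ 2`. -/
theorem result (p : ℕ) [Fact p.Prime] :
    (∀ (k : Type u) [Field k] [CharP k p] (G : Type v) [Group G] (m : ℕ)
      (ρ : G →* Matrix (Fin m) (Fin m) k), (Set.range ρ).Finite → ∀ n : ℕ,
      Works p ρ n (padicValNat p (Nat.card (Set.range ρ)) +
        Nat.clog p (Nat.card (Set.range ρ)))) ∧
    (∀ N : ℕ, ¬ p ∣ N → IsLeast {d | Unif p N d} (Nat.clog p N)) ∧
    (∀ a b : ℕ, ¬ p ∣ b → Unif p (p ^ a * b) (2 * a + Nat.clog p b) ∧
      ∀ d, Unif p (p ^ a * b) d → a ≤ d ∧ Nat.clog p b ≤ d) ∧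
    (∀ (k : Type u) [Field k] [CharP k p] (G : Type v) [Group G] (χ : G →* kˣ),
      (Set.range χ).Finite → ∀ n, 2 ≤ n → ∀ d,
      Works p (rhoChar χ) n d ↔ Nat.clog p (Nat.card (Set.range χ)) ≤ d) ∧
    (∀ (k : Type u) [Field k] [CharP k p] (G : Type v) [Group G]
      (ρ : G →* Matrix (Fin 1) (Fin 1) k), (Set.range ρ).Finite →
      (∀ n, Works p ρ n (Nat.log p (Nat.card (Set.range ρ)))) ∧
      ∀ n, Nat.card (Set.range ρ) ≤ n → ∀ d,
        Works p ρ n d ↔ Nat.log p (Nat.card (Set.range ρ)) ≤ d) ∧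
    (∀ (k : Type u) [Field k] [CharP k p] (G : Type v) [Group G] (E : Type w) [Field E]
      [Finite E] [Algebra E k] (π : G →* Multiplicative E), Function.Surjective π →
      ∀ a, Nat.card E = p ^ a → p ^ a ≠ 2 → ∀ n, 2 ≤ n → ∀ d,
        Works p ((rhoUni E k).comp π) n d → a ≤ d) ∧
    (∀ (k : Type u) [Field k] [CharP k p] (G : Type v) [Group G] (m : ℕ)
      (σ : G →* Equiv.Perm (Fin m)) (n e : ℕ), m * (m - 1) / 2 < p ^ e →
        Works p (rhoPerm k σ) n e) ∧
    (∀ (k : Type u) [Field k] [CharP k p] (m : ℕ) [NeZero m] (ζ : k), IsPrimitiveRoot ζ m → 3 ≤ m →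
      ∀ n, 2 ≤ n → ∀ d, Works p (rhoPerm k (rot m)) n d ↔ Nat.clog p m ≤ d) := by
  have hp : p.Prime := Fact.out
  refine ⟨fun k _ _ G _ m ρ hfin n => uniform_range p ρ hfin n, fun N hN =>
    ⟨(unif_iff p N hN _).2 le_rfl, fun d hd => (unif_iff p N hN d).1 hd⟩, fun a b hb => ⟨?_,
    fun d hd => ⟨unif_lower_all p _ a b rfl hb d hd, unif_lower_one p _ a b rfl hb d hd⟩⟩,
    fun k _ _ G _ χ hfin n hn d => exact_char p χ hfin n hn d,
    fun k _ _ G _ ρ hfin => exact_line p ρ hfin,
    fun k _ _ G _ E _ _ _ π hπ a hE h2 n hn d h => ?_,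
    fun k _ _ G _ m σ n e he => perm_works σ p n e he,
    fun k _ _ m _ ζ hζ hm n hn d => exact_rot ζ p hζ hm n hn d⟩
  · have hb0 : b ≠ 0 := by
      rintro rfl
      exact hb (dvd_zero p)
    have hN : 0 < p ^ a * b := Nat.mul_pos (pow_pos hp.pos a) (Nat.pos_of_ne_zero hb0)
    intro k _ _ G _ hG m ρ n
    refine works_mono p ρ n _ _ (unif_upper p _ hN k G hG m ρ n) ?_
    have h1 : padicValNat p (p ^ a * b) = a := by
      rw [padicValNat.mul (pow_ne_zero _ hp.ne_zero) hb0, padicValNat.prime_pow,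
        padicValNat.eq_zero_of_not_dvd hb, add_zero]
    have h2 : Nat.clog p (p ^ a * b) ≤ a + Nat.clog p b := by
      refine Nat.clog_le_of_le_pow ?_
      rw [pow_add]
      exact Nat.mul_le_mul_left _ (Nat.le_pow_clog hp.one_lt b)
    omega
  · rw [works_comp p _ π hπ] at h
    refine bound_uni E p a hE ?_ n hn d h
    have h1 : 1 < Nat.card E := Finite.one_lt_card
    rw [hE] at h1 ⊢
    omega

end Pool.Agent.Results.MP_d2bd57_al.OptimalExponent
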